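import Mathlib
import Pool.Agent.TH8.UDK.M3

/-!
MP_fcfa67_nt, Q1: rational curves over the ground field through rational points which are terms of
a sequence given by linear recurrences.
-/

set_option autoImplicit false

namespace Pool.Agent.Results.MP_fcfa67_nt.HolonomicManin

open MvPolynomial Filter
open Pool.Agent.TH143.HE (PRec)

variable {k : Type} [Field k] {N : ℕ}

/-- The point with the homogeneous coordinates `v` belongs to the projective variety given by the
forms in `I`. -/
def OnX (I : Ideal (MvPolynomial (Fin (N + 1)) k)) (v : Fin (N + 1) → k) : Prop :=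
  ∀ G ∈ I, (∃ d, G.IsHomogeneous d) → eval v G = 0

/-- The polynomials `p j` are the homogeneous coordinates of a nonconstant map, defined over `k`,
from the projective line to the projective variety given by the forms in `I`. -/
def RatCurve (I : Ideal (MvPolynomial (Fin (N + 1)) k)) (p : Fin (N + 1) → Polynomial k) : Prop :=
  (∀ G ∈ I, (∃ d, G.IsHomogeneous d) → (aeval p G : Polynomial k) = 0) ∧
    ∃ i j u v, (p i).eval u * (p j).eval v ≠ (p j).eval u * (p i).eval v

/-- The point with the homogeneous coordinates `v` is the image of a `k`-point under a nonconstant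
map, defined over `k`, from the projective line to the variety. -/
def OnRatCurve (I : Ideal (MvPolynomial (Fin (N + 1)) k)) (v : Fin (N + 1) → k) : Prop :=
  ∃ p, RatCurve I p ∧ ∃ u b : k, b ≠ 0 ∧ ∀ j, (p j).eval u = b * v j

/-- The sequence of points is eventually periodic. -/
def EvPeriodic (x : ℕ → Fin (N + 1) → k) : Prop :=
  ∃ r m0 : ℕ, 0 < r ∧ ∀ m, m0 ≤ m → ∀ i j, x (m + r) i * x m j = x (m + r) j * x m i

/-- Let `k` be a field which can be embedded in `ℂ`, for instance a number field, let `X` and `Z` be
the projective varieties given by the forms in `I` and in `I'`, and let `U` be the complement of `Z`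
in `X`. A sequence of points of `X(k)` is P-recursive if it has homogeneous coordinates in `k` which
satisfy nontrivial linear recurrences whose coefficients are polynomials in the index.

(1) A P-recursive sequence of points of `X(k)` is eventually periodic, or infinitely many of its
terms lie on rational curves in `X` which are defined over `k`: they are images of `k`-points under
nonconstant maps from the projective line to `X` over `k`.

(2) The following are equivalent: there is a nonconstant map from the projective line to `X` over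
`k` whose image meets `U` (in a `k`-point); there is a P-recursive sequence of points of `U(k)`
with infinitely many different terms; there is a P-recursive sequence of points of `U(k)` which is
not eventually periodic. -/
theorem result (k : Type) [Field k] (σ : k →+* ℂ) {N : ℕ}
    (I I' : Ideal (MvPolynomial (Fin (N + 1)) k)) :
    (∀ x : ℕ → Fin (N + 1) → k, (∀ m, x m ≠ 0) → (∀ j, PRec fun m => x m j) →
      (∀ m, OnX I (x m)) → EvPeriodic x ∨ ∃ᶠ m in atTop, OnRatCurve I (x m)) ∧
    List.TFAE [
      ∃ (p : Fin (N + 1) → Polynomial k) (u : k), RatCurve I p ∧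
        ¬ OnX I' (fun j => (p j).eval u),
      ∃ (x : ℕ → Fin (N + 1) → k) (hx : ∀ m, x m ≠ 0), (∀ j, PRec fun m => x m j) ∧
        (∀ m, OnX I (x m) ∧ ¬ OnX I' (x m)) ∧
        (Set.range fun m => Projectivization.mk k (x m) (hx m)).Infinite,
      ∃ x : ℕ → Fin (N + 1) → k, (∀ m, x m ≠ 0) ∧ (∀ j, PRec fun m => x m j) ∧
        (∀ m, OnX I (x m) ∧ ¬ OnX I' (x m)) ∧ ¬ EvPeriodic x] := by
  classical
  let _ : Algebra k ℂ := σ.toAlgebra
  have hchar : CharZero k := σ.charZero
  have h1 : ∀ x : ℕ → Fin (N + 1) → k, (∀ m, x m ≠ 0) → (∀ j, PRec fun m => x m j) →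
      (∀ m, OnX I (x m)) → EvPeriodic x ∨ ∃ᶠ m in atTop, OnRatCurve I (x m) := by
    intro x hne hx hX
    by_contra hcon
    rw [not_or] at hcon
    apply hcon.1
    refine Pool.Agent.TH8.UDK.K.periodic_k hne hx
      {G | G ∈ I ∧ ∃ d, G.IsHomogeneous d} (fun G hG => hG.2) (fun G hG m => hX m G hG.1 hG.2) ?_
    intro hfr
    apply hcon.2
    refine hfr.mono ?_
    rintro m ⟨p, e1, e2, u, b, hb, e3⟩
    exact ⟨p, ⟨fun G hG hGf => e1 G ⟨hG, hGf⟩, e2⟩, u, b, hb, fun j => congrFun e3 j⟩
  refine ⟨h1, ?_⟩
  have hsmul : ∀ (J : Ideal (MvPolynomial (Fin (N + 1)) k)) (b : k) (v : Fin (N + 1) → k),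
      b ≠ 0 → OnX J (fun j => b * v j) → OnX J v := by
    rintro J b v hb h G hG ⟨d, hd⟩
    have h2 := h G hG ⟨d, hd⟩
    rw [Pool.Agent.TH8.UDK.K.eval_smul_form hd] at h2
    exact (mul_eq_zero.1 h2).resolve_left (pow_ne_zero _ hb)
  have hsmul' : ∀ (J : Ideal (MvPolynomial (Fin (N + 1)) k)) (b : k) (v : Fin (N + 1) → k),
      OnX J v → OnX J (fun j => b * v j) := by
    rintro J b v h G hG ⟨d, hd⟩
    rw [Pool.Agent.TH8.UDK.K.eval_smul_form hd, h G hG ⟨d, hd⟩, mul_zero]
  tfae_have 1 → 2 := by
    rintro ⟨p, u, ⟨hp1, hp2⟩, hpu⟩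
    have hC : (Polynomial.C.comp (RingHom.id k)) = algebraMap k (Polynomial k) := by
      rw [RingHom.comp_id, Polynomial.algebraMap_eq]
    have hR : Pool.Agent.TH143.HE.RCur (RingHom.id k) I I' p := by
      refine ⟨fun G hG hGf => ?_, ?_, (Pool.Agent.TH143.HE.nc_iff p).2 hp2⟩
      · rw [hC]
        exact hp1 G hG hGf
      · unfold OnX at hpu
        push Not at hpu
        obtain ⟨G, hG, hGf, hne⟩ := hpu
        refine ⟨G, hG, hGf, fun h0 => hne ?_⟩
        rw [hC] at h0
        have h2 := MvPolynomial.comp_aeval_apply (f := p)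
          (Polynomial.aeval u : Polynomial k →ₐ[k] k) G
        rw [Polynomial.coe_aeval_eq_eval, MvPolynomial.aeval_eq_eval] at h2
        have h3 : (aeval p G : Polynomial k) = 0 := h0
        rw [h3, Polynomial.eval_zero] at h2
        exact h2.symm
    obtain ⟨x, e1, e2, e3, e4, e5⟩ := Pool.Agent.TH143.HE.exists_seq_rat (RingHom.id k) hR
    refine ⟨x, e1, e4, fun m => ⟨fun G hG hGf => e2 m G hG hGf, fun hc => e3 m fun G hG hGf =>
      hc G hG hGf⟩, fun hfin => ?_⟩
    have h7 := hfin.preimage' (f := fun m => Projectivization.mk k (x m) (e1 m)) fun P _ => by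
      refine (e5 P.rep P.rep_nonzero).subset fun m hm i j => ?_
      have h8 : Projectivization.mk k (x m) (e1 m) = P := hm
      rw [← h8]
      obtain ⟨a, ha⟩ := Projectivization.exists_smul_eq_mk_rep k (x m) (e1 m)
      rw [← ha]
      change x m i * ((a : k) * x m j) = x m j * ((a : k) * x m i)
      ring
    rw [Set.preimage_range] at h7
    exact Set.infinite_univ h7
  tfae_have 2 → 3 := by
    rintro ⟨x, hx, e1, e2, e3⟩
    refine ⟨x, hx, e1, e2, ?_⟩
    rintro ⟨r, m0, hr, hper⟩
    apply e3
    have hmk : ∀ (v v' : Fin (N + 1) → k) (hv : v ≠ 0) (hv' : v' ≠ 0),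
        (∀ i j, v i * v' j = v j * v' i) →
        Projectivization.mk k v hv = Projectivization.mk k v' hv' := by
      intro v v' hv hv' h
      obtain ⟨l, hl⟩ := Function.ne_iff.1 hv'
      have hl' : v' l ≠ 0 := hl
      rw [Projectivization.mk_eq_mk_iff']
      refine ⟨v l / v' l, ?_⟩
      funext i
      rw [Pi.smul_apply, smul_eq_mul, div_mul_eq_mul_div, div_eq_iff hl']
      exact (h i l).symm
    refine ((Set.finite_lt_nat (m0 + r)).image
      fun m => Projectivization.mk k (x m) (hx m)).subset ?_
    rintro _ ⟨m, rfl⟩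
    induction m using Nat.strong_induction_on with
    | _ m ih =>
      rcases Nat.lt_or_ge m (m0 + r) with h2 | h2
      · exact ⟨m, h2, rfl⟩
      · have h3 := hper (m - r) (by omega)
        have h4 : m - r + r = m := by omega
        rw [h4] at h3
        have h5 := hmk _ _ (hx m) (hx (m - r)) h3
        simp only at ih ⊢
        rw [h5]
        exact ih (m - r) (by omega)
  tfae_have 3 → 1 := by
    rintro ⟨x, hne, hx, hU, hper⟩
    obtain ⟨m, p, hp, u, b, hb, hbe⟩ := ((h1 x hne hx fun m => (hU m).1).resolve_left hper).exists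
    refine ⟨p, u, hp, fun hc => (hU m).2 (hsmul I' b (x m) hb ?_)⟩
    have h2 : (fun j => b * x m j) = fun j => (p j).eval u := funext fun j => (hbe j).symm
    rw [h2]
    exact hc
  tfae_finish

end Pool.Agent.Results.MP_fcfa67_nt.HolonomicManin
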